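import Mathlib
import Pool.Agent.H96.ExclusionDefs
import Pool.Agent.H96.ExclusionProof
import Pool.Agent.EBX.Main2
import Pool.Agent.EBX.NegMain

/-!
# Mixing time of the exclusion process in a ballistic random environment: for which laws is it
of order at most `N^(3/2)`?

For every ballistic law on `(0,1]` (i.i.d. environments): if `ω` has an inverse moment of some
order larger than `2` (for instance if `ω` is bounded away from `0`), the mixing time is at most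
`N^a` for some `a < 3/2`, for all particle numbers; if the law puts mass at least `c τ^2` on
`(0,τ]` for a sequence of `τ` tending to `0` (in particular if some inverse moment of order
smaller than `2` is infinite), then the bound `C N^(3/2)` fails for every `C` and all particle
numbers of positive density.
-/

set_option autoImplicit false

open MeasureTheory Filter Topology
open scoped ENNReal NNReal

namespace Pool.Agent.Results.MP_39c14e_pr.Dichotomy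

open Pool.Agent.H96.Exclusion

/-- **Main theorem.** -/
theorem result :
    -- the negated form of the question
    (∃ ν : Measure ℝ, IsProbabilityMeasure ν ∧ ν (Set.Ioo (0 : ℝ) 1)ᶜ = 0 ∧
      ∫⁻ w, ENNReal.ofReal ((1 - w) / w) ∂ν < 1 ∧ ∀ C : ℝ,
        Tendsto (fun N : ℕ => Measure.pi (fun _ : Fin N => ν)
          {ω | mixingTime (N / 2) ω ≤ ENNReal.ofReal (C * (N : ℝ) ^ (3 / 2 : ℝ))})
          atTop (𝓝 0)) ∧
    ∀ (ν : Measure ℝ) [IsProbabilityMeasure ν], ν (Set.Ioc (0 : ℝ) 1)ᶜ = 0 →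
      ∫⁻ w, ENNReal.ofReal ((1 - w) / w) ∂ν < 1 →
    -- quantitative upper bound
    (∀ s : ℝ, 1 ≤ s → ∫⁻ w, ENNReal.ofReal (((1 - w) / w) ^ s) ∂ν < 1 →
      ∫⁻ w, ENNReal.ofReal (w ^ (-(2 * s))) ∂ν < ∞ →
      ∀ a : ℝ, 1 + 1 / (2 * s) < a → ∀ k : ℕ → ℕ, (∀ᶠ N : ℕ in atTop, 1 ≤ k N ∧ k N ≤ N) →
        Tendsto (fun N : ℕ => Measure.pi (fun _ : Fin N => ν)
          {ω | mixingTime (k N) ω ≤ ENNReal.ofReal ((N : ℝ) ^ a)}) atTop (𝓝 1)) ∧
    -- light traps: more than two inverse moments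
    (∀ r : ℝ, 2 < r → ∫⁻ w, ENNReal.ofReal (w ^ (-r)) ∂ν < ∞ →
      ∃ a : ℝ, a < 3 / 2 ∧ ∀ k : ℕ → ℕ, (∀ᶠ N : ℕ in atTop, 1 ≤ k N ∧ k N ≤ N) →
        Tendsto (fun N : ℕ => Measure.pi (fun _ : Fin N => ν)
          {ω | mixingTime (k N) ω ≤ ENNReal.ofReal ((N : ℝ) ^ a)}) atTop (𝓝 1)) ∧
    -- heavy traps: mass at least `c τ ^ 2` below `τ`, for arbitrarily small `τ`
    (∀ c : ℝ, 0 < c →
      (∀ t : ℝ, 0 < t → ∃ τ : ℝ, 0 < τ ∧ τ < t ∧ ENNReal.ofReal (c * τ ^ 2) ≤ ν (Set.Iic τ)) →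
      ∀ (k : ℕ → ℕ) (δ : ℝ), 0 < δ →
        (∀ᶠ N : ℕ in atTop, δ * N ≤ k N ∧ (k N : ℝ) ≤ (1 - δ) * N) → ∀ C : ℝ,
          ¬ Tendsto (fun N : ℕ => Measure.pi (fun _ : Fin N => ν)
            {ω | mixingTime (k N) ω ≤ ENNReal.ofReal (C * (N : ℝ) ^ (3 / 2 : ℝ))})
            atTop (𝓝 1)) ∧
    -- heavy traps: some inverse moment of order less than two is infinite
    (∀ r : ℝ, 0 < r → r < 2 → ∫⁻ w, ENNReal.ofReal (w ^ (-r)) ∂ν = ∞ →
      ∀ (k : ℕ → ℕ) (δ : ℝ), 0 < δ →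
        (∀ᶠ N : ℕ in atTop, δ * N ≤ k N ∧ (k N : ℝ) ≤ (1 - δ) * N) → ∀ C : ℝ,
          ¬ Tendsto (fun N : ℕ => Measure.pi (fun _ : Fin N => ν)
            {ω | mixingTime (k N) ω ≤ ENNReal.ofReal (C * (N : ℝ) ^ (3 / 2 : ℝ))})
            atTop (𝓝 1)) := by
  refine ⟨?_, fun ν _ hν hball => ⟨?_, ?_, ?_, ?_⟩⟩
  · obtain ⟨ν, h1, h2, h3, h4⟩ := Pool.Agent.H96.Exclusion.main
    refine ⟨ν, h1, h2, h3, fun C => h4 (fun N => N / 2) (1 / 4) (by norm_num) ?_ (3 / 2)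
      (by norm_num) C⟩
    filter_upwards [eventually_ge_atTop 4] with N hN
    have h5 : (N : ℝ) / 2 - 1 ≤ ((N / 2 : ℕ) : ℝ) := by
      have h6 : N ≤ 2 * (N / 2) + 1 := by omega
      have h7 : (N : ℝ) ≤ 2 * ((N / 2 : ℕ) : ℝ) + 1 := by exact_mod_cast h6
      linarith
    have h8 : ((N / 2 : ℕ) : ℝ) ≤ (N : ℝ) / 2 := Nat.cast_div_le
    have h9 : (4 : ℝ) ≤ N := by exact_mod_cast hN
    constructor
    · linarith
    · linarith
  · intro s hs hms hMs a ha k hk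
    exact Pool.Agent.EBX.main2 ν hν hball s hs hms hMs a ha k hk
  · intro r hr hMr
    obtain ⟨s, hs, hms, hMs⟩ := Pool.Agent.EBX.exists_s2 ν hν hball r hr hMr
    have hs0 : (0 : ℝ) < 2 * s := by linarith
    have h1 : 1 / (2 * s) < 1 / 2 := by
      rw [div_lt_div_iff₀ hs0 (by norm_num)]
      linarith
    refine ⟨(1 + 1 / (2 * s) + 3 / 2) / 2, by linarith, fun k hk => ?_⟩
    exact Pool.Agent.EBX.main2 ν hν hball s hs.le hms hMs _ (by linarith) k hk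
  · intro c hc hslow k δ hδ hk C
    exact Pool.Agent.EBX.neg_main ν hν hball c hc hslow k δ hδ hk C
  · intro r hr0 hr2 hMr k δ hδ hk C
    refine Pool.Agent.EBX.neg_main ν hν hball 1 one_pos (fun t ht => ?_) k δ hδ hk C
    obtain ⟨τ, h1, h2, h3⟩ := Pool.Agent.EBX.slow_seq ν hν r 2 hr0 hr2 hMr t ht
    refine ⟨τ, h1, h2, ?_⟩
    rw [one_mul]
    simpa using h3

end Pool.Agent.Results.MP_39c14e_pr.Dichotomy
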