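import Mathlib
import Pool.Agent.H96.ExclusionDefs
import Pool.Agent.H96.ExclusionProof

/-!
# Mixing time of the exclusion process in a ballistic random environment

We disprove the conjectured bound `C N^(3/2)`: there is a ballistic law, supported in the open
interval `(0,1)`, for which the mixing time exceeds every power `N^a` with `a < 2`.
-/

set_option autoImplicit false

open MeasureTheory Filter Topology
open scoped ENNReal NNReal

namespace Pool.Agent.Results.MP_39c14e_pr.HeavyTraps

open Pool.Agent.H96.Exclusion

/-- **Main theorem.** There is a ballistic law on `(0,1)` (for i.i.d. environments) such that for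
every sequence of particle numbers `k(N)` of positive density of particles and holes and every
exponent `a < 2`, the mixing time exceeds `C N^a` with probability tending to one, for each `C`. -/
theorem result :
    ∃ ν : Measure ℝ, IsProbabilityMeasure ν ∧ ν (Set.Ioo (0 : ℝ) 1)ᶜ = 0 ∧
      ∫⁻ w, ENNReal.ofReal ((1 - w) / w) ∂ν < 1 ∧
      ∀ (k : ℕ → ℕ) (δ : ℝ), 0 < δ →
        (∀ᶠ N : ℕ in atTop, δ * N ≤ k N ∧ (k N : ℝ) ≤ (1 - δ) * N) →
        ∀ a : ℝ, a < 2 → ∀ C : ℝ,
          Tendsto (fun N : ℕ => Measure.pi (fun _ : Fin N => ν)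
            {ω | mixingTime (k N) ω ≤ ENNReal.ofReal (C * (N : ℝ) ^ a)}) atTop (𝓝 0) :=
  Pool.Agent.H96.Exclusion.main

end Pool.Agent.Results.MP_39c14e_pr.HeavyTraps
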